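import Mathlib
import Pool.Agent.H86.QC.Dim

/-!
Sets whose Assouad spectrum (or upper box-counting dimension) is below one have global
quasiconformal Assouad spectrum dimension zero.
-/

namespace Pool.Agent.Results.MP_9aa1ff_an.QCBelowOne

open Pool.Agent.H86.QC Filter Topology

/-- For `n ≥ 2`, `0 ≤ θ < 1` and every `A` in Euclidean `n`-space with `dim_A^θ(A) < 1` (nonempty
when `θ = 0`), the infimum of `dim_A^θ(f(A))` over quasiconformal `f` is `0`. -/
theorem result (n : ℕ) (hn : 2 ≤ n) (θ : ℝ) (hθ0 : 0 ≤ θ) (hθ1 : θ < 1)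
    (A : Set (EuclideanSpace ℝ (Fin n))) (hA : θ = 0 → A.Nonempty) (h : dimSpec θ A < 1) :
    QCdim θ A = 0 := by
  obtain ⟨k, rfl⟩ : ∃ k, n = k + 1 := ⟨n - 1, by omega⟩
  apply le_antisymm
  · -- upper bound
    apply le_of_forall_gt
    intro c hc
    obtain ⟨ε, hε1, hε2⟩ := EReal.lt_iff_exists_real_btwn.mp hc
    have hε0 : 0 < ε := by exact_mod_cast hε1
    refine lt_of_le_of_lt ?_ hε2
    rcases hθ0.eq_or_lt with h0 | h0
    · -- box-counting case
      subst h0
      simp only [dimSpec, if_true] at h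
      obtain ⟨d, hd0, hd1, hL, R, hR⟩ := lbox_of_box h
      obtain ⟨G, hG, hGL⟩ := core k hd0 hd1 A hL (half_pos hε0)
      obtain ⟨f, hfG, hf⟩ := hG.homeo
      obtain ⟨D, hD⟩ := hG.2.1
      refine iInf_le_of_le f (iInf_le_of_le hf ?_)
      simp only [dimSpec, if_true]
      have himg : f '' A = G '' A := Set.image_congr fun x _ => hfG x
      rw [himg]
      apply box_of_lbox hε0 hGL (R := R + D)
      rintro _ ⟨a, ha, rfl⟩
      calc ‖G a‖ = ‖a + (G a - a)‖ := by congr 1; abel
        _ ≤ ‖a‖ + ‖G a - a‖ := norm_add_le _ _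
        _ ≤ R + D := add_le_add (hR a ha) (hD a)
    · -- Assouad spectrum case
      simp only [dimSpec, if_neg h0.ne'] at h
      obtain ⟨d, hd0, hd1, hL⟩ := lbox_of_assouad h0 hθ1 h
      obtain ⟨G, hG, hGL⟩ := core k hd0 hd1 A hL (mul_pos hε0 (sub_pos.mpr hθ1))
      obtain ⟨f, hfG, hf⟩ := hG.homeo
      refine iInf_le_of_le f (iInf_le_of_le hf ?_)
      simp only [dimSpec, if_neg h0.ne']
      have himg : f '' A = G '' A := Set.image_congr fun x _ => hfG x
      rw [himg]
      exact assouad_of_lbox h0 hθ1 hε0.le hGL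
  · -- lower bound
    refine le_iInf fun f => le_iInf fun _ => ?_
    rcases hθ0.eq_or_lt with h0 | h0
    · subst h0
      simp only [dimSpec, if_true, upperBoxDim]
      apply Filter.le_limsup_of_frequently_le _ (by isBoundedDefault)
      apply Filter.Eventually.frequently
      filter_upwards [Ioo_mem_nhdsGT (zero_lt_one' ℝ)] with r hr
      have hlog : 0 < -Real.log r := by
        have := Real.log_neg hr.1 hr.2; linarith
      apply EReal.div_nonneg
      · rw [ENNReal.zero_le_log_iff]
        unfold coverNumber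
        refine le_iInf fun S => le_iInf fun hS => ?_
        obtain ⟨a, ha⟩ := hA rfl
        obtain ⟨s, hs, _⟩ := Set.mem_iUnion₂.mp (hS.2 (Set.mem_image_of_mem f ha))
        have : 1 ≤ S.card := Finset.card_pos.mpr ⟨s, hs⟩
        exact_mod_cast this
      · exact_mod_cast hlog.le
    · simp only [dimSpec, if_neg h0.ne', assouadSpectrum]
      refine le_iInf fun α => le_iInf fun hα => ?_
      exact_mod_cast hα.1

end Pool.Agent.Results.MP_9aa1ff_an.QCBelowOne
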